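import Pool.Agent.H55.GW.Targets1

/-!
# Module FRO of the board of helper55 (MP_97b7aa_co): gammoids have frames
-/

set_option autoImplicit false

namespace Pool.Agent.H37.GW

open Pool.Agent.H55.GW

theorem base_card {N : Matroid ℕ} {I X : Finset ℕ} (hI : N.IsBase (I : Set ℕ))
    (hX : N.IsBase (X : Set ℕ)) : I.card = X.card := by
  have h := hI.encard_eq_encard_of_isBase hX
  rw [Set.encard_coe_eq_coe_finsetCard, Set.encard_coe_eq_coe_finsetCard] at h
  exact_mod_cast h

theorem indep_card {N : Matroid ℕ} {J I : Finset ℕ} (hJ : N.Indep (J : Set ℕ))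
    (hI : N.IsBase (I : Set ℕ)) : J.card ≤ I.card := by
  have h := hJ.encard_le_eRank
  rw [← hI.encard_eq_eRank, Set.encard_coe_eq_coe_finsetCard,
    Set.encard_coe_eq_coe_finsetCard] at h
  exact_mod_cast h

theorem base_of_card {N : Matroid ℕ} (hN : N.E.Finite) {J I : Finset ℕ}
    (hJ : N.Indep (J : Set ℕ)) (hI : N.IsBase (I : Set ℕ)) (h : I.card ≤ J.card) :
    N.IsBase (J : Set ℕ) := by
  obtain ⟨B, hB, hJB⟩ := hJ.exists_isBase_superset
  have hfin : B.Finite := hN.subset hB.subset_ground
  obtain ⟨B', rfl⟩ := hfin.exists_finset_coe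
  have h1 := base_card hB hI
  have h2 : J = B' := Finset.eq_of_subset_of_card_le (by exact_mod_cast hJB) (by omega)
  rwa [h2]

/-- a presentation of a transversal matroid -/
def Pres (N : Matroid ℕ) (r : ℕ) (A : Fin r → Set ℕ) : Prop :=
  ∀ I : Set ℕ, N.Indep I ↔
    (I ⊆ N.E ∧ ∃ f : ℕ → Fin r, Set.InjOn f I ∧ ∀ x ∈ I, x ∈ A (f x))

/-- the classes used by a base can be used by all bases -/
theorem classes {N : Matroid ℕ} (hN : N.E.Finite) {r : ℕ} {A : Fin r → Set ℕ}
    (hp : Pres N r A) : ∃ P : Finset (Fin r),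
      (∀ I : Set ℕ, N.IsBase I → ∃ h : Fin r → ℕ, Set.BijOn h (P : Set (Fin r)) I ∧
        ∀ c ∈ P, h c ∈ A c) ∧
      (∀ h : Fin r → ℕ, Set.InjOn h (P : Set (Fin r)) → (∀ c ∈ P, h c ∈ A c ∧ h c ∈ N.E) →
        N.IsBase (h '' (P : Set (Fin r)))) := by
  classical
  obtain ⟨X, hX⟩ := N.exists_isBase
  have hfin : X.Finite := hN.subset hX.subset_ground
  obtain ⟨X, rfl⟩ := hfin.exists_finset_coe
  obtain ⟨hXE, f, hf, hfA⟩ := (hp _).mp hX.indep
  have hcP : (X.image f).card = X.card := Finset.card_image_of_injOn hf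
  refine ⟨X.image f, ?_, ?_⟩
  · intro I hI
    have hIfin : I.Finite := hN.subset hI.subset_ground
    obtain ⟨I, rfl⟩ := hIfin.exists_finset_coe
    obtain ⟨hIE, f1, hf1, hf1A⟩ := (hp _).mp hI.indep
    have hIX := base_card hI hX
    let t : {c // c ∈ X.image f} → Finset ℕ := fun c => I.filter (fun x => x ∈ A c.1)
    have hall : ∀ s : Finset {c // c ∈ X.image f}, s.card ≤ (s.biUnion t).card := by
      intro s
      set K := s.biUnion t with hK
      set S := s.image Subtype.val with hS
      have hSc : S.card = s.card := Finset.card_image_of_injective _ Subtype.val_injective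
      set Y := X.filter (fun x => f x ∈ S) with hY
      have hYc : Y.card = S.card := by
        have h1 : Y.image f = S := by
          ext c
          constructor
          · intro hc
            obtain ⟨x, hx, rfl⟩ := Finset.mem_image.mp hc
            exact (Finset.mem_filter.mp hx).2
          · intro hc
            obtain ⟨c', hc', rfl⟩ := Finset.mem_image.mp hc
            obtain ⟨x, hx, hxc⟩ := Finset.mem_image.mp c'.2
            refine Finset.mem_image.mpr ⟨x, Finset.mem_filter.mpr ⟨hx, ?_⟩, hxc⟩
            rw [hxc]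
            exact Finset.mem_image.mpr ⟨c', hc', rfl⟩
        rw [← h1]
        refine (Finset.card_image_of_injOn (hf.mono ?_)).symm
        intro x hx
        exact (Finset.mem_filter.mp (Finset.mem_coe.mp hx)).1
      have hKmem : ∀ x ∈ I, ∀ c ∈ S, x ∈ A c → x ∈ K := by
        intro x hx c hc hxc
        obtain ⟨c', hc', rfl⟩ := Finset.mem_image.mp hc
        exact Finset.mem_biUnion.mpr ⟨c', hc', Finset.mem_filter.mpr ⟨hx, hxc⟩⟩
      have hKI : K ⊆ I := by
        intro x hx
        obtain ⟨c', hc', hx'⟩ := Finset.mem_biUnion.mp hx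
        exact (Finset.mem_filter.mp hx').1
      have hdisj : Disjoint (I \ K) Y := by
        rw [Finset.disjoint_left]
        intro x hx hxY
        obtain ⟨hxI, hxK⟩ := Finset.mem_sdiff.mp hx
        obtain ⟨hxX, hxS⟩ := Finset.mem_filter.mp hxY
        exact hxK (hKmem x hxI _ hxS (hfA x (by simpa using hxX)))
      have hind : N.Indep (((I \ K) ∪ Y : Finset ℕ) : Set ℕ) := by
        rw [hp]
        refine ⟨?_, fun x => if x ∈ Y then f x else f1 x, ?_, ?_⟩
        · intro x hx
          rcases Finset.mem_union.mp (Finset.mem_coe.mp hx) with hx | hx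
          · exact hIE (by simpa using (Finset.mem_sdiff.mp hx).1)
          · exact hXE (by simpa using (Finset.mem_filter.mp hx).1)
        · have hout : ∀ x ∈ I \ K, f1 x ∉ S := by
            intro x hx hc
            obtain ⟨hxI, hxK⟩ := Finset.mem_sdiff.mp hx
            exact hxK (hKmem x hxI _ hc (hf1A x (by simpa using hxI)))
          intro x hx y hy hxy
          simp only at hxy
          rcases Finset.mem_union.mp (Finset.mem_coe.mp hx) with hx1 | hx1 <;>
            rcases Finset.mem_union.mp (Finset.mem_coe.mp hy) with hy1 | hy1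
          · have hxn : x ∉ Y := Finset.disjoint_left.mp hdisj hx1
            have hyn : y ∉ Y := Finset.disjoint_left.mp hdisj hy1
            rw [if_neg hxn, if_neg hyn] at hxy
            exact hf1 (by simpa using (Finset.mem_sdiff.mp hx1).1)
              (by simpa using (Finset.mem_sdiff.mp hy1).1) hxy
          · have hxn : x ∉ Y := Finset.disjoint_left.mp hdisj hx1
            rw [if_neg hxn, if_pos hy1] at hxy
            exact absurd (hxy ▸ (Finset.mem_filter.mp hy1).2) (hout x hx1)
          · have hyn : y ∉ Y := Finset.disjoint_left.mp hdisj hy1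
            rw [if_pos hx1, if_neg hyn] at hxy
            exact absurd (hxy ▸ (Finset.mem_filter.mp hx1).2) (hout y hy1)
          · rw [if_pos hx1, if_pos hy1] at hxy
            exact hf (by simpa using (Finset.mem_filter.mp hx1).1)
              (by simpa using (Finset.mem_filter.mp hy1).1) hxy
        · intro x hx
          rcases Finset.mem_union.mp (Finset.mem_coe.mp hx) with hx1 | hx1
          · have hxn : x ∉ Y := Finset.disjoint_left.mp hdisj hx1
            simp only [if_neg hxn]
            exact hf1A x (by simpa using (Finset.mem_sdiff.mp hx1).1)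
          · simp only [if_pos hx1]
            exact hfA x (by simpa using (Finset.mem_filter.mp hx1).1)
      have h1 := indep_card hind hI
      rw [Finset.card_union_of_disjoint hdisj, Finset.card_sdiff_of_subset hKI] at h1
      have h2 := Finset.card_le_card hKI
      omega
    obtain ⟨g, hg, hgt⟩ := (Finset.all_card_le_biUnion_card_iff_exists_injective t).mp hall
    have hgt' : ∀ c, g c ∈ I ∧ g c ∈ A c.1 := fun c => Finset.mem_filter.mp (hgt c)
    refine ⟨fun c => if hc : c ∈ X.image f then g ⟨c, hc⟩ else 0, ?_, ?_⟩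
    · have hmaps : Set.MapsTo (fun c => if hc : c ∈ X.image f then g ⟨c, hc⟩ else 0)
          ((X.image f : Finset (Fin r)) : Set (Fin r)) (I : Set ℕ) := by
        intro c hc
        have hc' := Finset.mem_coe.mp hc
        simp only [dif_pos hc']
        exact Finset.mem_coe.mpr (hgt' _).1
      have hinj : Set.InjOn (fun c => if hc : c ∈ X.image f then g ⟨c, hc⟩ else 0)
          ((X.image f : Finset (Fin r)) : Set (Fin r)) := by
        intro c hc c' hc' h
        have h1 := Finset.mem_coe.mp hc
        have h2 := Finset.mem_coe.mp hc'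
        simp only [dif_pos h1, dif_pos h2] at h
        exact congrArg Subtype.val (hg h)
      refine ⟨hmaps, hinj, ?_⟩
      exact Finset.surjOn_of_injOn_of_card_le _ hmaps hinj (by omega)
    · intro c hc
      simp only [dif_pos hc]
      exact (hgt' ⟨c, hc⟩).2
  · intro h hinj hA
    have hne : Nonempty (Fin r) := ⟨f 0⟩
    have hcoe : h '' ((X.image f : Finset (Fin r)) : Set (Fin r)) =
        (((X.image f).image h : Finset ℕ) : Set ℕ) := by
      rw [Finset.coe_image (f := h)]
    rw [hcoe]
    refine base_of_card hN ?_ hX ?_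
    · rw [← hcoe, hp]
      refine ⟨?_, Function.invFunOn h ((X.image f : Finset (Fin r)) : Set (Fin r)), ?_, ?_⟩
      · rintro _ ⟨c, hc, rfl⟩
        exact (hA c (Finset.mem_coe.mp hc)).2
      · rintro _ ⟨c, hc, rfl⟩ _ ⟨c', hc', rfl⟩ hh
        rw [hinj.leftInvOn_invFunOn hc, hinj.leftInvOn_invFunOn hc'] at hh
        rw [hh]
      · rintro _ ⟨c, hc, rfl⟩
        rw [hinj.leftInvOn_invFunOn hc]
        exact (hA c (Finset.mem_coe.mp hc)).1
    · rw [Finset.card_image_of_injOn hinj]
      omega

/-- the reduction to a transversal matroid `N'` such that the bases of `M` are the bases of the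
dual of `N'` inside `M.E` -/
theorem reduce {M N : Matroid ℕ} (hN : N.E.Finite) (hME : M.E ⊆ N.E)
    (hM : M = N.dual.restrict M.E) {r : ℕ} {A : Fin r → Set ℕ} (hp : Pres N r A) :
    ∃ N' : Matroid ℕ, N'.E.Finite ∧ Pres N' r A ∧ M.E ⊆ N'.E ∧
      ∀ B : Set ℕ, B ⊆ M.E → (M.IsBase B ↔ N'.IsBase (N'.E \ B)) := by
  classical
  have hMfin : M.E.Finite := hN.subset hME
  have hdE : N.dual.E.Finite := by rw [Matroid.dual_ground]; exact hN
  have hMind : ∀ I : Set ℕ, M.Indep I ↔ (N.dual.Indep I ∧ I ⊆ M.E) := by
    intro I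
    constructor
    · intro h
      rw [hM, Matroid.restrict_indep_iff] at h
      exact h
    · intro h
      rw [hM, Matroid.restrict_indep_iff]
      exact h
  obtain ⟨B0, hB0⟩ := M.exists_isBase
  obtain ⟨B1, hB1, hB01⟩ := ((hMind B0).mp hB0.indep).1.exists_isBase_superset
  set R := B1 \ M.E with hR
  have hRind : N.dual.Indep R := hB1.indep.subset Set.sdiff_subset
  have hB1f : B1.Finite := hdE.subset hB1.subset_ground
  have hRf : R.Finite := hB1f.subset Set.sdiff_subset
  have hB0f : B0.Finite := hMfin.subset hB0.subset_ground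
  have hB0e : B1 ∩ M.E = B0 := by
    refine (hB0.eq_of_subset_indep ?_ ?_).symm
    · rw [hMind]
      exact ⟨hB1.indep.subset Set.inter_subset_left, Set.inter_subset_right⟩
    · exact Set.subset_inter hB01 hB0.subset_ground
  have hB1e : B1 = B0 ∪ R := by
    rw [hR, ← hB0e, Set.inter_union_sdiff]
  have hRM : Disjoint R M.E := Set.disjoint_sdiff_left
  have hcard1 : B1.encard = B0.encard + R.encard := by
    rw [hB1e]
    refine Set.encard_union_eq ?_
    exact (hRM.mono_right hB0.subset_ground).symm
  have hmain : ∀ B : Set ℕ, B ⊆ M.E → (M.IsBase B ↔ N.dual.IsBase (B ∪ R)) := by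
    intro B hBM
    have hBf : B.Finite := hMfin.subset hBM
    have hdisj : Disjoint B R := (hRM.mono_right hBM).symm
    constructor
    · intro hB
      obtain ⟨B', hB', hBB', hB'2⟩ :=
        ((hMind B).mp hB.indep).1.exists_isBase_subset_union_isBase hB1
      have h1 : B' ∩ M.E = B := by
        refine (hB.eq_of_subset_indep ?_ ?_).symm
        · rw [hMind]
          exact ⟨hB'.indep.subset Set.inter_subset_left, Set.inter_subset_right⟩
        · exact Set.subset_inter hBB' hBM
      have h2 : B' ⊆ B ∪ R := by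
        intro x hx
        by_cases hxM : x ∈ M.E
        · exact Or.inl (h1 ▸ ⟨hx, hxM⟩)
        · rcases hB'2 hx with h | h
          · exact Or.inl h
          · exact Or.inr ⟨h, hxM⟩
      have h3 : (B ∪ R).encard = B'.encard := by
        rw [Set.encard_union_eq hdisj, hB'.encard_eq_encard_of_isBase hB1, hcard1,
          hB.encard_eq_encard_of_isBase hB0]
      have h4 : B' = B ∪ R :=
        ((hBf.union hRf).subset h2).eq_of_subset_of_encard_le h2 h3.le
      rwa [← h4]
    · intro hBR
      have h1 : M.Indep B := by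
        rw [hMind]
        exact ⟨hBR.indep.subset Set.subset_union_left, hBM⟩
      obtain ⟨B2, hB2, hBB2⟩ := h1.exists_isBase_superset
      have h2 : B.encard + R.encard = B0.encard + R.encard := by
        rw [← Set.encard_union_eq hdisj, ← hcard1, hBR.encard_eq_encard_of_isBase hB1]
      have h3 : B.encard = B0.encard := by
        have hRtop : R.encard ≠ ⊤ := by rwa [Set.encard_ne_top_iff]
        exact WithTop.add_right_cancel hRtop h2
      have h4 : B = B2 := by
        refine hBf.eq_of_subset_of_encard_le hBB2 ?_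
        rw [hB2.encard_eq_encard_of_isBase hB0, h3]
      rwa [h4]
  refine ⟨N.delete R, ?_, ?_, ?_, ?_⟩
  · rw [Matroid.delete_ground]
    exact hN.subset Set.sdiff_subset
  · intro I
    rw [Matroid.delete_indep_iff, hp, Matroid.delete_ground, Set.subset_sdiff]
    tauto
  · rw [Matroid.delete_ground, Set.subset_sdiff]
    exact ⟨hME, hRM.symm⟩
  · intro B hBM
    have hdisj : Disjoint B R := (hRM.mono_right hBM).symm
    have hBN : B ⊆ (N.delete R).E := by
      rw [Matroid.delete_ground, Set.subset_sdiff]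
      exact ⟨hBM.trans hME, hdisj⟩
    rw [hmain B hBM, ← Matroid.dual_isBase_iff hBN, Matroid.dual_delete,
      hRind.contract_isBase_iff]
    exact ⟨fun h => ⟨h, hdisj⟩, fun h => h.1⟩

/-- The module FRO. -/
theorem fro : T_FRO := by
  classical
  rintro M ⟨N, hNf, ⟨r, A, hp⟩, hME, hM⟩
  have hN : N.E.Finite := hNf.ground_finite
  obtain ⟨N', hN', hp', hME', hbase⟩ := reduce hN hME hM hp
  obtain ⟨P, hP1, hP2⟩ := classes hN' hp'
  have hMfin : M.E.Finite := hN.subset hME
  let F : Frame :=
    { V := (hN'.toFinset.image (fun x => 2 * x)) ∪ (P.image (fun c : Fin r => 2 * (c : ℕ) + 1))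
      E := hMfin.toFinset
      isP := fun v => v % 2 = 1
      adj := fun p q => ∃ c ∈ P, ∃ x ∈ N'.E, x ∈ A c ∧ p = 2 * (c : ℕ) + 1 ∧ q = 2 * x
      att := fun e v => e ∈ M.E ∧ v = 2 * e
      co := fun _ => False
      adj_wf := by
        rintro p q ⟨c, hc, x, hx, hxA, rfl, rfl⟩
        refine ⟨Finset.mem_union_right _ (Finset.mem_image.mpr ⟨c, hc, rfl⟩),
          Finset.mem_union_left _ (Finset.mem_image.mpr ⟨x, by simpa using hx, rfl⟩),
          by omega, by omega⟩
      att_wf := by
        rintro e v ⟨he, rfl⟩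
        exact ⟨by simpa using he,
          Finset.mem_union_left _ (Finset.mem_image.mpr ⟨e, by simpa using hME' he, rfl⟩)⟩
      att_uniq := by
        rintro e v w ⟨-, rfl⟩ ⟨-, rfl⟩
        rfl }
  have hbm : ∀ m : ℕ → Vx, F.base m = {e | e ∈ M.E ∧ m (2 * e) = Sum.inl e} := by
    intro m
    ext e
    constructor
    · rintro ⟨-, ⟨v, ⟨hv1, rfl⟩, hv2⟩ | ⟨h1, h2⟩⟩
      · refine ⟨hv1, ?_⟩
        by_contra hcon
        have h3 : (2 * e) % 2 = 1 := hv2.mpr hcon
        omega
      · exact absurd h2 (fun h => h)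
    · rintro ⟨h1, h2⟩
      refine ⟨by show e ∈ hMfin.toFinset; simpa using h1, Or.inl ⟨2 * e, ⟨h1, rfl⟩, ?_⟩⟩
      constructor
      · intro h3
        have h4 : (2 * e) % 2 = 1 := h3
        omega
      · intro h3
        exact absurd h2 h3
  have hVQ : ∀ x, x ∈ N'.E → 2 * x ∈ F.V := fun x hx =>
    Finset.mem_union_left _ (Finset.mem_image.mpr ⟨x, by simpa using hx, rfl⟩)
  have hVP : ∀ c ∈ P, 2 * (c : ℕ) + 1 ∈ F.V := fun c hc =>
    Finset.mem_union_right _ (Finset.mem_image.mpr ⟨c, hc, rfl⟩)
  refine ⟨F, by show M.E = ((hMfin.toFinset : Finset ℕ) : Set ℕ); simp, fun B => ?_⟩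
  constructor
  · intro hB
    have hBM := hB.subset_ground
    have hI := (hbase B hBM).mp hB
    obtain ⟨h, hh, hhA⟩ := hP1 _ hI
    -- the perfect matching
    let m : ℕ → Vx := fun v =>
      if v % 2 = 1 then
        (if hv : ∃ c ∈ P, v = 2 * (c : ℕ) + 1 then Sum.inr (2 * h hv.choose) else Sum.inl 0)
      else
        (if hv : ∃ c ∈ P, v = 2 * h c then Sum.inr (2 * (hv.choose : ℕ) + 1)
          else Sum.inl (v / 2))
    have hmP : ∀ c ∈ P, m (2 * (c : ℕ) + 1) = Sum.inr (2 * h c) := by
      intro c hc
      have hex : ∃ c' ∈ P, 2 * (c : ℕ) + 1 = 2 * (c' : ℕ) + 1 := ⟨c, hc, rfl⟩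
      have h1 : (2 * (c : ℕ) + 1) % 2 = 1 := by omega
      have h2 : hex.choose = c := by
        have := hex.choose_spec.2
        exact Fin.ext (by omega)
      simp only [m, if_pos h1]
      rw [dif_pos hex, h2]
    have hmQ : ∀ c ∈ P, m (2 * h c) = Sum.inr (2 * (c : ℕ) + 1) := by
      intro c hc
      have hex : ∃ c' ∈ P, 2 * h c = 2 * h c' := ⟨c, hc, rfl⟩
      have h1 : ¬ (2 * h c) % 2 = 1 := by omega
      have h2 : hex.choose = c := by
        have h3 := hex.choose_spec.2
        exact (hh.injOn (Finset.mem_coe.mpr hc) (Finset.mem_coe.mpr hex.choose_spec.1)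
          (by omega)).symm
      simp only [m, if_neg h1]
      rw [dif_pos hex, h2]
    have hmB : ∀ x ∈ B, m (2 * x) = Sum.inl x := by
      intro x hx
      have hex : ¬ ∃ c' ∈ P, 2 * x = 2 * h c' := by
        rintro ⟨c', hc', he⟩
        have h1 := hh.mapsTo (Finset.mem_coe.mpr hc')
        have h2 : x = h c' := by omega
        rw [← h2] at h1
        exact h1.2 hx
      have h1 : ¬ (2 * x) % 2 = 1 := by omega
      simp only [m, if_neg h1]
      rw [dif_neg hex, Nat.mul_div_cancel_left x (by norm_num)]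
    refine ⟨m, ?_, ?_⟩
    · intro v hv
      rcases Finset.mem_union.mp hv with hv | hv
      · obtain ⟨x, hx, rfl⟩ := Finset.mem_image.mp hv
        have hx' : x ∈ N'.E := by simpa using hx
        by_cases hxB : x ∈ B
        · rw [hmB x hxB]
          refine ⟨?_, fun u hu => by simp at hu⟩
          intro e he
          injection he with he
          subst he
          exact ⟨hBM hxB, rfl⟩
        · obtain ⟨c, hc, hcx⟩ := hh.surjOn (show x ∈ N'.E \ B from ⟨hx', hxB⟩)
          have hc' := Finset.mem_coe.mp hc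
          rw [← hcx, hmQ c hc']
          refine ⟨fun e he => by simp at he, ?_⟩
          intro u hu
          injection hu with hu
          subst hu
          refine ⟨Or.inr ⟨c, hc', h c, by rw [hcx]; exact hx', hhA c hc', rfl, rfl⟩, hmP c hc'⟩
      · obtain ⟨c, hc, rfl⟩ := Finset.mem_image.mp hv
        rw [hmP c hc]
        refine ⟨fun e he => by simp at he, ?_⟩
        intro u hu
        injection hu with hu
        subst hu
        have h1 := hh.mapsTo (Finset.mem_coe.mpr hc)
        exact ⟨Or.inl ⟨c, hc, h c, h1.1, hhA c hc, rfl, rfl⟩, hmQ c hc⟩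
    · rw [hbm]
      ext e
      constructor
      · rintro ⟨he, hm⟩
        by_contra heB
        obtain ⟨c, hc, hcx⟩ := hh.surjOn (show e ∈ N'.E \ B from ⟨hME' he, heB⟩)
        have hc' := Finset.mem_coe.mp hc
        rw [← hcx, hmQ c hc'] at hm
        simp at hm
      · intro he
        exact ⟨hBM he, hmB e he⟩
  · rintro ⟨m, hm, rfl⟩
    have hBM : F.base m ⊆ M.E := by
      rw [hbm]
      exact fun e he => he.1
    rw [hbase _ hBM]
    -- the mate of a vertex of class P
    have hc1 : ∀ c ∈ P, ∃ x, x ∈ N'.E ∧ x ∈ A c ∧ m (2 * (c : ℕ) + 1) = Sum.inr (2 * x) ∧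
        m (2 * x) = Sum.inr (2 * (c : ℕ) + 1) := by
      intro c hc
      rcases hmc : m (2 * (c : ℕ) + 1) with e | u
      · have h1 := (hm _ (hVP c hc)).1 e hmc
        obtain ⟨-, h2⟩ := h1
        omega
      · obtain ⟨h1, h2⟩ := (hm _ (hVP c hc)).2 u hmc
        rcases h1 with ⟨c', hc', x, hx, hxA, e1, rfl⟩ | ⟨c', hc', x, hx, hxA, e1, e2⟩
        · have hcc : c' = c := Fin.ext (by omega)
          subst hcc
          exact ⟨x, hx, hxA, rfl, h2⟩
        · omega
    choose! h hh1 hh2 hh3 hh4 using hc1
    have hinj : Set.InjOn h (P : Set (Fin r)) := by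
      intro c hc c' hc' he
      have e1 := hh4 c (Finset.mem_coe.mp hc)
      have e2 := hh4 c' (Finset.mem_coe.mp hc')
      rw [he, e2] at e1
      injection e1 with e1
      exact Fin.ext (by omega)
    have hkey := hP2 h hinj (fun c hc => ⟨hh2 c hc, hh1 c hc⟩)
    have heq : N'.E \ F.base m = h '' (P : Set (Fin r)) := by
      rw [hbm]
      ext x
      constructor
      · rintro ⟨hx, hxB⟩
        rcases hmx : m (2 * x) with e | u
        · obtain ⟨h1, h2⟩ := (hm _ (hVQ x hx)).1 e hmx
          have h3 : e = x := by omega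
          subst h3
          exact absurd ⟨h1, hmx⟩ hxB
        · obtain ⟨h1, h2⟩ := (hm _ (hVQ x hx)).2 u hmx
          rcases h1 with ⟨c', hc', x', hx', hxA, e1, e2⟩ | ⟨c', hc', x', hx', hxA, rfl, e2⟩
          · omega
          · refine ⟨c', Finset.mem_coe.mpr hc', ?_⟩
            have e3 := hh3 c' hc'
            rw [h2] at e3
            injection e3 with e3
            omega
      · rintro ⟨c, hc, rfl⟩
        have hc' := Finset.mem_coe.mp hc
        refine ⟨hh1 c hc', ?_⟩
        rintro ⟨-, h2⟩
        rw [hh4 c hc'] at h2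
        simp at h2
    rw [heq]
    exact hkey

end Pool.Agent.H37.GW
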