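import Pool.Agent.H55.GW.Targets1

/-!
# Module KUNG of the board of helper55 (MP_97b7aa_co)
-/

set_option autoImplicit false

namespace Pool.Agent.H37.GW

open Pool.Agent.H55.GW

theorem restrict_minor {M : Matroid ℕ} {K : Set ℕ} (hK : K ⊆ M.E) :
    (M.restrict K).IsMinor M :=
  ⟨∅, M.E \ K, by rw [Matroid.contract_empty, Matroid.delete_compl hK]⟩

theorem contract_minor (M : Matroid ℕ) (C : Set ℕ) : (M.contract C).IsMinor M :=
  ⟨C, ∅, by rw [Matroid.delete_empty]⟩

theorem encard_pair_le (a b : ℕ) : ({a, b} : Set ℕ).encard ≤ 2 := by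
  refine (Set.encard_insert_le _ _).trans ?_
  rw [Set.encard_singleton]
  norm_num

theorem noLine_minor {q : ℕ} {M N : Matroid ℕ} (h : NoLine q M) (hN : N.IsMinor M) :
    NoLine q N := fun ⟨K, h1, h2⟩ => h ⟨K, h1.trans hN, h2⟩

/-- a pairwise independent subset of a line has at most `q + 1` points -/
theorem line_card {q : ℕ} {M : Matroid ℕ} (h : NoLine q M) {e y : ℕ} (hey : M.Indep {e, y})
    (L : Finset ℕ) (hL : (L : Set ℕ) ⊆ M.closure {e, y})
    (hp : ∀ a ∈ L, ∀ b ∈ L, a ≠ b → M.Indep {a, b}) : L.card ≤ q + 1 := by
  by_contra hcon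
  push Not at hcon
  obtain ⟨K, hKL, hK⟩ := Finset.exists_subset_card_eq (show q + 2 ≤ L.card by omega)
  have hLE : (L : Set ℕ) ⊆ M.E := hL.trans (M.closure_subset_ground _)
  have hKLs : (K : Set ℕ) ⊆ (L : Set ℕ) := by exact_mod_cast hKL
  have hsing : ∀ a ∈ K, M.Indep {a} := by
    intro a ha
    have h1 : 1 < K.card := by omega
    obtain ⟨b, hb, hab⟩ := Finset.exists_mem_ne h1 a
    exact (hp a (hKL ha) b (hKL hb) hab.symm).subset (by simp)
  refine h ⟨M.restrict (K : Set ℕ), restrict_minor (hKLs.trans hLE), ?_, ?_⟩
  · rw [Matroid.restrict_ground_eq, Set.ncard_coe_finset, hK]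
  · intro I
    rw [Matroid.restrict_ground_eq, Matroid.restrict_indep_iff]
    constructor
    · rintro ⟨hI, hIK⟩
      refine ⟨hIK, ?_⟩
      have h1 : I.encard ≤ M.eRk (M.closure {e, y}) :=
        hI.encard_le_eRk_of_subset ((hIK.trans hKLs).trans hL)
      rw [Matroid.eRk_closure_eq] at h1
      have h2 : I.encard ≤ 2 := h1.trans ((M.eRk_le_encard _).trans (encard_pair_le _ _))
      have hfin : I.Finite := K.finite_toSet.subset hIK
      rw [← hfin.cast_ncard_eq] at h2
      exact_mod_cast h2
    · rintro ⟨hIK, hc⟩
      refine ⟨?_, hIK⟩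
      have hfin : I.Finite := K.finite_toSet.subset hIK
      obtain ⟨J, rfl⟩ := hfin.exists_finset_coe
      rw [Set.ncard_coe_finset] at hc
      have hc' : J.card = 0 ∨ J.card = 1 ∨ J.card = 2 := by omega
      have hJK : J ⊆ K := by exact_mod_cast hIK
      rcases hc' with hc | hc | hc
      · rw [Finset.card_eq_zero] at hc
        subst hc
        simp
      · obtain ⟨a, rfl⟩ := Finset.card_eq_one.mp hc
        rw [Finset.coe_singleton]
        exact hsing a (hJK (by simp))
      · obtain ⟨a, b, hab, rfl⟩ := Finset.card_eq_two.mp hc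
        rw [Finset.coe_pair]
        exact hp a (hKL (hJK (by simp))) b (hKL (hJK (by simp))) hab

theorem kung_aux (q : ℕ) : ∀ b : ℕ, ∃ ε : ℕ, ∀ M : Matroid ℕ, M.E.Finite → NoLine q M →
    ∀ X : Finset ℕ, (X : Set ℕ) ⊆ M.E → (∀ x ∈ X, ∀ y ∈ X, x ≠ y → M.Indep {x, y}) →
    M.eRk (X : Set ℕ) ≤ (b : ℕ∞) → X.card ≤ ε := by
  classical
  intro b
  induction b with
  | zero =>
    refine ⟨1, fun M hM hq X hX hp hr => ?_⟩
    by_contra hcon
    push Not at hcon
    obtain ⟨x, hx, y, hy, hxy⟩ := Finset.one_lt_card.mp hcon
    have h1 : M.Indep {x} := (hp x hx y hy hxy).subset (by simp)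
    have h2 : ({x} : Set ℕ).encard ≤ M.eRk (X : Set ℕ) :=
      h1.encard_le_eRk_of_subset (by simpa using hx)
    rw [Set.encard_singleton] at h2
    have h3 := h2.trans hr
    simp at h3
  | succ b ih =>
    obtain ⟨ε, hε⟩ := ih
    refine ⟨1 + ε * q, fun M hM hq X hX hp hr => ?_⟩
    by_cases hX1 : X.card ≤ 1
    · omega
    push Not at hX1
    obtain ⟨e, he⟩ : X.Nonempty := Finset.card_pos.mp (by omega)
    have hsing : ∀ a ∈ X, M.Indep {a} := by
      intro a ha
      obtain ⟨b, hb, hab⟩ := Finset.exists_mem_ne hX1 a
      exact (hp a ha b hb hab.symm).subset (by simp)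
    have heI := hsing e he
    set M' := M.contract {e} with hM'
    have hind : ∀ I : Set ℕ, M'.Indep I ↔ e ∉ I ∧ M.Indep (insert e I) := by
      intro I
      rw [hM', heI.contract_indep_iff]
      simp
    set X' := X.erase e with hX'
    have hq' : NoLine q M' := noLine_minor hq (contract_minor _ _)
    have hM'E : M'.E = M.E \ {e} := rfl
    -- a maximal pairwise independent subset
    let good : Finset ℕ → Prop := fun Y => ∀ x ∈ Y, ∀ y ∈ Y, x ≠ y → M'.Indep {x, y}
    obtain ⟨P, hP⟩ : ∃ P : Finset (Finset ℕ), ∀ Y, Y ∈ P ↔ Y ⊆ X' ∧ good Y :=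
      ⟨X'.powerset.filter good, fun Y => by simp⟩
    have hPne : P.Nonempty := ⟨∅, by rw [hP]; exact ⟨by simp, fun x hx => by simp at hx⟩⟩
    obtain ⟨Y, hYP, hYmax⟩ := Finset.exists_max_image P Finset.card hPne
    rw [hP] at hYP
    obtain ⟨hYX, hYp⟩ := hYP
    have hYe : e ∉ (Y : Set ℕ) := fun hh => by
      have := hYX hh
      rw [hX'] at this
      simp at this
    have hXr : M'.eRk (Y : Set ℕ) ≤ (b : ℕ∞) := by
      rw [Matroid.eRk_le_iff]
      intro I hIY hI
      rw [hind] at hI
      have h1 : (insert e I : Set ℕ).encard ≤ M.eRk (X : Set ℕ) := by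
        refine hI.2.encard_le_eRk_of_subset ?_
        intro x hx
        rcases Set.mem_insert_iff.mp hx with rfl | hx
        · simpa using he
        · have := hYX (by simpa using hIY hx)
          rw [hX'] at this
          exact_mod_cast (Finset.mem_of_mem_erase this)
      rw [Set.encard_insert_of_notMem hI.1] at h1
      have h2 := h1.trans hr
      push_cast at h2
      exact (ENat.add_le_add_iff_right ENat.one_ne_top).mp h2
    have hYc : Y.card ≤ ε := by
      refine hε M' (hM.subset (by rw [hM'E]; exact Set.sdiff_subset)) hq' Y ?_ hYp hXr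
      intro x hx
      rw [hM'E]
      have hx' := hYX (by simpa using hx)
      rw [hX', Finset.mem_erase] at hx'
      exact ⟨hX (by simpa using hx'.2), by simpa using hx'.1⟩
    -- the classes
    set C : ℕ → Finset ℕ := fun y => X'.filter (fun f => f = y ∨ ¬ M'.Indep {f, y}) with hC
    have hcov : X' ⊆ Y.biUnion C := by
      intro f hf
      rw [Finset.mem_biUnion]
      by_cases hfY : f ∈ Y
      · exact ⟨f, hfY, by rw [hC, Finset.mem_filter]; exact ⟨hf, Or.inl rfl⟩⟩
      · by_contra hcon
        push Not at hcon
        have h1 : insert f Y ∈ P := by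
          rw [hP]
          refine ⟨Finset.insert_subset hf hYX, ?_⟩
          have h2 : ∀ y ∈ Y, M'.Indep {f, y} := by
            intro y hy
            have h3 := hcon y hy
            rw [hC, Finset.mem_filter] at h3
            push Not at h3
            exact (h3 hf).2
          intro x hx y hy hxy
          rcases Finset.mem_insert.mp hx with hx1 | hx1 <;>
            rcases Finset.mem_insert.mp hy with hy1 | hy1
          · exact absurd (hx1.trans hy1.symm) hxy
          · rw [hx1]; exact h2 y hy1
          · rw [hy1, Set.pair_comm]; exact h2 x hx1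
          · exact hYp x hx1 y hy1 hxy
        have h3 := hYmax _ h1
        rw [Finset.card_insert_of_notMem hfY] at h3
        omega
    have hCc : ∀ y ∈ Y, (C y).card ≤ q := by
      intro y hy
      have hyX' := hYX hy
      rw [hX', Finset.mem_erase] at hyX'
      have hey : M.Indep {e, y} := hp e he y hyX'.2 hyX'.1.symm
      have heC : e ∉ C y := by
        rw [hC, Finset.mem_filter, hX']
        simp
      have h1 : (insert e (C y)).card ≤ q + 1 := by
        refine line_card hq hey _ ?_ ?_
        · intro f hf
          rw [Finset.coe_insert, Set.mem_insert_iff] at hf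
          rcases hf with rfl | hf
          · exact M.mem_closure_of_mem (by simp) hey.subset_ground
          · rw [Finset.mem_coe, hC, Finset.mem_filter, hX', Finset.mem_erase] at hf
            obtain ⟨⟨hfe, hfX⟩, hf⟩ := hf
            rcases hf with rfl | hf
            · exact M.mem_closure_of_mem (by simp) hey.subset_ground
            · rw [hind] at hf
              rw [hey.mem_closure_iff]
              by_cases hfy : f = y
              · right; simp [hfy]
              · left
                have h2 : ¬ M.Indep (insert e {f, y}) := by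
                  intro hh
                  exact hf ⟨by simp [hfe.symm, hyX'.1.symm], hh⟩
                rw [Matroid.dep_iff]
                constructor
                · rwa [Set.insert_comm] at h2
                · exact Set.insert_subset (hX (by simpa using hfX)) hey.subset_ground
        · intro a ha b hb hab
          have hmem : ∀ c ∈ insert e (C y), c ∈ X := by
            intro c hc
            rcases Finset.mem_insert.mp hc with rfl | hc
            · exact he
            · rw [hC, Finset.mem_filter, hX', Finset.mem_erase] at hc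
              exact hc.1.2
          exact hp a (hmem a ha) b (hmem b hb) hab
      rw [Finset.card_insert_of_notMem heC] at h1
      omega
    have h1 : X'.card ≤ ∑ y ∈ Y, (C y).card :=
      (Finset.card_le_card hcov).trans Finset.card_biUnion_le
    have h2 : ∑ y ∈ Y, (C y).card ≤ Y.card * q := by
      have := Finset.sum_le_card_nsmul Y (fun y => (C y).card) q hCc
      simpa using this
    have h3 : X.card = X'.card + 1 := by
      rw [hX', Finset.card_erase_of_mem he]
      omega
    have h4 : Y.card * q ≤ ε * q := Nat.mul_le_mul_right q hYc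
    omega

/-- The module KUNG. -/
theorem kung : T_KUNG := fun q b => kung_aux q b

end Pool.Agent.H37.GW
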